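import Mathlib

set_option autoImplicit false

namespace Pool.Agent.Results.MP_88a444_an.Predual

open Filter Topology

universe u v

section Defs
variable {𝕜 : Type} [RCLike 𝕜] {X : Type u} {Y : Type v} [NormedAddCommGroup X] [NormedSpace 𝕜 X]
  [NormedAddCommGroup Y] [NormedSpace 𝕜 Y]

/-- Range strongly exposing operators. -/
def RSE (T : X →L[𝕜] Y) : Prop :=
  ∃ x₀ : X, ‖x₀‖ = 1 ∧ ∀ x : ℕ → X, (∀ n, ‖x n‖ ≤ 1) → Tendsto (fun n => ‖T (x n)‖) atTop (𝓝 ‖T‖) →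
    ∃ σ : ℕ → ℕ, StrictMono σ ∧ ∃ l : 𝕜, ‖l‖ = 1 ∧
      Tendsto (fun n => T (x (σ n))) atTop (𝓝 (l • T x₀))
end Defs

/-- `K(X, Y)` has the BPBp-RSE. -/
def BPBpK (𝕜 : Type) [RCLike 𝕜] (X : Type u) (Y : Type v) [NormedAddCommGroup X] [NormedSpace 𝕜 X]
    [NormedAddCommGroup Y] [NormedSpace 𝕜 Y] : Prop :=
  ∀ ε : ℝ, 0 < ε → ∃ η : ℝ, 0 < η ∧ η < ε ∧ ∀ (T : X →L[𝕜] Y) (x : X), IsCompactOperator T →
    ‖T‖ = 1 → ‖x‖ = 1 → 1 - η < ‖T x‖ → ∃ (S : X →L[𝕜] Y) (x₀ : X), RSE S ∧ IsCompactOperator S ∧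
      ‖x₀‖ = 1 ∧ ‖S‖ = 1 ∧ ‖S x₀‖ = 1 ∧ ‖S - T‖ < ε ∧ ‖x - x₀‖ < ε

/-- `X*` is isometrically isomorphic to `ℓ₁`. -/
def IsL1Predual (𝕜 : Type) [RCLike 𝕜] (X : Type u) [NormedAddCommGroup X] [NormedSpace 𝕜 X] : Prop :=
  Nonempty (StrongDual 𝕜 X ≃ₗᵢ[𝕜] lp (fun _ : ℕ => 𝕜) 1)

/-- Uniform convexity. -/
def UC (Y : Type v) [NormedAddCommGroup Y] : Prop :=
  ∀ ε : ℝ, 0 < ε → ∃ δ : ℝ, 0 < δ ∧ δ < 1 ∧ ∀ y₁ y₂ : Y, ‖y₁‖ = 1 → ‖y₂‖ = 1 →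
    1 - δ < ‖y₁ + y₂‖ / 2 → ‖y₁ - y₂‖ < ε

/-- `𝕜`-uniform convexity (for `𝕜 = ℂ` this is `ℂ`-uniform convexity). -/
def KUC (𝕜 : Type) [RCLike 𝕜] (Y : Type v) [NormedAddCommGroup Y] [NormedSpace 𝕜 Y] : Prop :=
  ∀ ε : ℝ, 0 < ε → ∃ δ : ℝ, 0 < δ ∧ ∀ y₀ y₁ : Y, (∀ w : 𝕜, ‖w‖ = 1 → ‖y₀ + w • y₁‖ ≤ 1) →
    ε < ‖y₁‖ → ‖y₀‖ < 1 - δ

section Proofs
variable {𝕜 : Type} [RCLike 𝕜] {X : Type u} {Y : Type v} [NormedAddCommGroup X] [NormedSpace 𝕜 X]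
  [NormedAddCommGroup Y] [NormedSpace 𝕜 Y]

theorem rot (c : 𝕜) : ∃ w : 𝕜, ‖w‖ = 1 ∧ w * c = (‖c‖ : 𝕜) := by
  by_cases h : c = 0
  · exact ⟨1, by simp, by simp [h]⟩
  · have h1 : ‖c‖ ≠ 0 := norm_ne_zero_iff.mpr h
    refine ⟨(‖c‖ : 𝕜) / c, by simp [h], by field_simp⟩

theorem disc {p q : Y} (h : ∀ w : 𝕜, ‖w‖ = 1 → ‖p + w • q‖ ≤ 1) (c : 𝕜) (hc : ‖c‖ ≤ 1) :
    ‖p + c • q‖ ≤ 1 := by
  obtain ⟨w, hw, e⟩ := rot c
  have hw0 : w ≠ 0 := by rintro rfl; simp at hw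
  have hc' : c = (‖c‖ : 𝕜) * w⁻¹ := by rw [← e]; field_simp
  have h1 := h w⁻¹ (by simp [hw])
  have h2 := h (-w⁻¹) (by simp [hw])
  have e2 : p + c • q = (((1 + ‖c‖) / 2 : ℝ) : 𝕜) • (p + w⁻¹ • q) +
      (((1 - ‖c‖) / 2 : ℝ) : 𝕜) • (p + (-w⁻¹) • q) := by
    nth_rewrite 1 [hc']
    push_cast
    module
  rw [e2]
  refine (norm_add_le _ _).trans ?_
  have := norm_nonneg c
  rw [norm_smul, norm_smul, RCLike.norm_ofReal, RCLike.norm_ofReal, abs_of_nonneg (by positivity),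
    abs_of_nonneg (by linarith)]
  nlinarith

theorem bidisc {p q : Y} (h : ∀ w : 𝕜, ‖w‖ = 1 → ‖p + w • q‖ ≤ 1) (a b : 𝕜) (ha : ‖a‖ ≤ 1)
    (hb : ‖b‖ ≤ 1) : ‖a • p + b • q‖ ≤ 1 := by
  rw [add_comm]
  refine disc (fun w hw => ?_) a ha
  have hw0 : w ≠ 0 := by rintro rfl; simp at hw
  have e : b • q + w • p = w • (p + (w⁻¹ * b) • q) := by
    rw [smul_add, smul_smul, mul_inv_cancel_left₀ hw0, add_comm]
  rw [e, norm_smul, hw, one_mul]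
  exact disc h _ (by simpa [hw] using hb)

theorem near_one {c : 𝕜} {γ : ℝ} (hγ : 0 < γ) (h1 : ‖c‖ ≤ 1) (h2 : 1 - γ ^ 2 / 2 < RCLike.re c) :
    ‖c - 1‖ < γ := by
  have e : ‖c - 1‖ ^ 2 = ‖c‖ ^ 2 - 2 * RCLike.re c + 1 := by
    rw [RCLike.norm_sq_eq_def, RCLike.norm_sq_eq_def]
    simp only [map_sub, RCLike.one_re, RCLike.one_im]
    ring
  have : ‖c‖ ^ 2 ≤ 1 := by nlinarith [norm_nonneg c]
  exact lt_of_pow_lt_pow_left₀ 2 hγ.le (by linarith)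

theorem both {f g : StrongDual 𝕜 X} (hf : ‖f‖ ≤ 1) (hg : ‖g‖ ≤ 1) (h : ‖f + g‖ = 2) {γ : ℝ}
    (hγ : 0 < γ) : ∃ x : X, ‖x‖ ≤ 1 ∧ ‖f x - 1‖ < γ ∧ ‖g x - 1‖ < γ := by
  obtain ⟨x, hx, h1⟩ := (f + g).exists_lt_apply_of_lt_opNorm (r := 2 - γ ^ 2 / 2)
    (by rw [h]; nlinarith)
  obtain ⟨w, hw, e⟩ := rot ((f + g) x)
  have hwx : ‖w • x‖ ≤ 1 := by rw [norm_smul, hw, one_mul]; exact hx.le
  have h2 : ‖f (w • x)‖ ≤ 1 := (f.le_opNorm _).trans (by nlinarith [norm_nonneg f, norm_nonneg (w • x)])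
  have h3 : ‖g (w • x)‖ ≤ 1 := (g.le_opNorm _).trans (by nlinarith [norm_nonneg g, norm_nonneg (w • x)])
  have h4 : RCLike.re (f (w • x)) + RCLike.re (g (w • x)) = ‖(f + g) x‖ := by
    rw [← map_add, ← add_apply, map_smul, smul_eq_mul, e, RCLike.ofReal_re]
  have h5 := (RCLike.re_le_norm (f (w • x))).trans h2
  have h6 := (RCLike.re_le_norm (g (w • x))).trans h3
  exact ⟨w • x, hwx, near_one hγ h2 (by linarith), near_one hγ h3 (by linarith)⟩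

theorem rse_step {S : X →L[𝕜] Y} (hS : RSE S) (h1 : ‖S‖ = 1) {x₀ : X} (h0 : ‖x₀‖ = 1)
    (h2 : ‖S x₀‖ = 1) {φ : StrongDual 𝕜 Y} (hφ : ‖φ‖ = 1) (hφ0 : φ (S x₀) = 1) (z : ℕ → X)
    (hz : ∀ n, ‖z n‖ ≤ 1) (hl : Tendsto (fun n => φ (S (z n))) atTop (𝓝 1)) :
    ∃ σ : ℕ → ℕ, StrictMono σ ∧ Tendsto (fun n => S (z (σ n))) atTop (𝓝 (S x₀)) := by
  obtain ⟨x₁, -, H⟩ := hS
  obtain ⟨_, -, l₀, -, e0⟩ := H (fun _ => x₀) (fun _ => h0.le) (by rw [h1, h2]; exact tendsto_const_nhds)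
  have e1 : S x₀ = l₀ • S x₁ := tendsto_nhds_unique tendsto_const_nhds e0
  have ht : Tendsto (fun n => ‖S (z n)‖) atTop (𝓝 ‖S‖) := by
    rw [h1]
    have h3 := hl.norm
    rw [norm_one] at h3
    refine tendsto_of_tendsto_of_tendsto_of_le_of_le h3 tendsto_const_nhds (fun n => ?_) (fun n => ?_)
    · simpa [hφ] using φ.le_opNorm (S (z n))
    · exact (S.le_opNorm _).trans (by rw [h1, one_mul]; exact hz n)
  obtain ⟨σ, hσ, l, -, e2⟩ := H z hz ht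
  refine ⟨σ, hσ, ?_⟩
  have e3 : φ (l • S x₁) = 1 :=
    tendsto_nhds_unique ((φ.continuous.tendsto _).comp e2) (hl.comp hσ.tendsto_atTop)
  rw [e1, map_smul, smul_eq_mul] at hφ0
  rw [map_smul, smul_eq_mul] at e3
  have e4 : l = l₀ := by
    have : φ (S x₁) ≠ 0 := by intro h; rw [h] at e3; simp at e3
    exact mul_right_cancel₀ this (e3.trans hφ0.symm)
  rwa [e1, ← e4]

theorem core (u v : StrongDual 𝕜 X) (hu : ‖u‖ = 1) (hv : ‖v‖ = 1)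
    (huv : ∀ c : 𝕜, ‖u + c • v‖ = ‖u‖ + ‖c‖)
    (hL : ∀ f : StrongDual 𝕜 X, ∃ a : 𝕜, ∀ c : 𝕜, ‖f - a • v + c • v‖ = ‖f - a • v‖ + ‖c‖)
    (h : BPBpK 𝕜 X Y) : KUC 𝕜 Y := by
  intro ε₀ hε₀
  set ε : ℝ := min (ε₀ / 17) (1 / 4) with hε
  have hε0 : 0 < ε := by positivity
  have hε1 : ε ≤ ε₀ / 17 := min_le_left _ _
  have hε2 : ε ≤ 1 / 4 := min_le_right _ _
  obtain ⟨η, hη0, hη1, H⟩ := h ε hε0
  refine ⟨η / 4, by positivity, fun y₀ y₁ hy hy1 => ?_⟩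
  by_contra hy0
  push Not at hy0
  have hn0 : ‖y₀‖ ≤ 1 := by simpa using bidisc hy 1 0 (by simp) (by simp)
  have hn1 : ‖y₁‖ ≤ 1 := by simpa using bidisc hy 0 1 (by simp) (by simp)
  have hux : ∀ x, ‖u x‖ ≤ ‖x‖ := fun x => by simpa [hu] using u.le_opNorm x
  have hvx : ∀ x, ‖v x‖ ≤ ‖x‖ := fun x => by simpa [hv] using v.le_opNorm x
  let T : X →L[𝕜] Y := u.smulRight y₀ + v.smulRight y₁
  have hT : ∀ x, T x = u x • y₀ + v x • y₁ := fun x => rfl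
  have hTc : IsCompactOperator T := by
    have h1 := (isCompactOperator_of_locallyCompactSpace_dom u).clm_comp
      (ContinuousLinearMap.toSpanSingleton 𝕜 y₀)
    have h2 := (isCompactOperator_of_locallyCompactSpace_dom v).clm_comp
      (ContinuousLinearMap.toSpanSingleton 𝕜 y₁)
    exact h1.add h2
  have hT1 : ‖T‖ ≤ 1 := by
    refine ContinuousLinearMap.opNorm_le_of_unit_norm zero_le_one fun x hx => ?_
    rw [hT]
    exact bidisc hy _ _ ((hux x).trans hx.le) ((hvx x).trans hx.le)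
  obtain ⟨x, hx, hxu, hxv⟩ : ∃ x : X, ‖x‖ = 1 ∧ ‖u x - 1‖ ≤ η / 4 ∧ ‖v x‖ ≤ η / 4 := by
    obtain ⟨p, hp, hp1, hp2⟩ := both (f := u) (g := v) hu.le hv.le
      (by have := huv 1; rw [one_smul, hu, norm_one] at this; rw [this]; norm_num)
      (γ := η / 8) (by positivity)
    obtain ⟨q, hq, hq1, hq2⟩ := both (f := u) (g := -v) hu.le (by rw [norm_neg, hv])
      (by
        have := huv (-1)
        rw [show u + (-1 : 𝕜) • v = u + -v by ext y; simp, hu, norm_neg, norm_one] at this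
        rw [this]; norm_num)
      (γ := η / 8) (by positivity)
    set z : X := (1 / 2 : 𝕜) • (p + q) with hz
    have n2 : ‖(1 / 2 : 𝕜)‖ = 1 / 2 := by simp
    have hz1 : ‖z‖ ≤ 1 := by
      rw [hz, norm_smul, n2]; linarith [norm_add_le p q]
    have hzu : ‖u z - 1‖ ≤ η / 8 := by
      have : u z - 1 = (1 / 2 : 𝕜) * ((u p - 1) + (u q - 1)) := by
        rw [hz, map_smul, map_add, smul_eq_mul]; ring
      rw [this, norm_mul, n2]; linarith [norm_add_le (u p - 1) (u q - 1)]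
    have hzv : ‖v z‖ ≤ η / 8 := by
      have : v z = (1 / 2 : 𝕜) * ((v p - 1) - ((-v) q - 1)) := by
        rw [hz, map_smul, map_add, smul_eq_mul, neg_apply]; ring
      rw [this, norm_mul, n2]; linarith [norm_sub_le (v p - 1) ((-v) q - 1)]
    have hz2 : 1 - η / 8 ≤ ‖z‖ := by
      have h1 := norm_sub_norm_le (1 : 𝕜) (u z)
      rw [norm_one, norm_sub_rev] at h1
      linarith [hux z]
    have hz0 : 0 < ‖z‖ := by linarith
    have hz0' : ((‖z‖ : ℝ) : 𝕜) ≠ 0 := by exact_mod_cast hz0.ne'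
    set x : X := ((‖z‖ : ℝ) : 𝕜)⁻¹ • z with hxd
    have hx1 : ‖x‖ = 1 := by
      rw [hxd, norm_smul, norm_inv, RCLike.norm_ofReal, abs_of_pos hz0, inv_mul_cancel₀ hz0.ne']
    have hxz : ‖x - z‖ ≤ η / 8 := by
      have : x - z = (((1 - ‖z‖ : ℝ)) : 𝕜) • x := by
        push_cast
        rw [sub_smul, one_smul, hxd, smul_inv_smul₀ hz0']
      rw [this, norm_smul, hx1, RCLike.norm_ofReal, abs_of_nonneg (by linarith)]
      linarith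
    refine ⟨x, hx1, ?_, ?_⟩
    · have : u x - 1 = u (x - z) + (u z - 1) := by rw [map_sub]; ring
      rw [this]; linarith [norm_add_le (u (x - z)) (u z - 1), hux (x - z)]
    · have : v x = v (x - z) + v z := by rw [map_sub]; ring
      rw [this]; linarith [norm_add_le (v (x - z)) (v z), hvx (x - z)]
  have hTx : ‖T x - y₀‖ ≤ η / 2 := by
    have : T x - y₀ = (u x - 1) • y₀ + v x • y₁ := by rw [hT]; module
    rw [this]
    refine (norm_add_le _ _).trans ?_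
    rw [norm_smul, norm_smul]
    nlinarith [norm_nonneg (u x - 1), norm_nonneg (v x), norm_nonneg y₀, norm_nonneg y₁]
  have hTx2 : 1 - η < ‖T x‖ := by
    have := norm_sub_norm_le y₀ (T x)
    rw [norm_sub_rev] at this
    linarith
  have ht : ‖T x‖ ≤ ‖T‖ := by simpa [hx] using T.le_opNorm x
  have ht0 : 0 < ‖T‖ := by linarith
  have ht0' : ((‖T‖ : ℝ) : 𝕜) ≠ 0 := by exact_mod_cast ht0.ne'
  set T' : X →L[𝕜] Y := ((‖T‖ : ℝ) : 𝕜)⁻¹ • T with hT'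
  have hni : ‖((‖T‖ : ℝ) : 𝕜)⁻¹‖ = ‖T‖⁻¹ := by rw [norm_inv, RCLike.norm_ofReal, abs_of_pos ht0]
  have hT'1 : ‖T'‖ = 1 := by rw [hT', norm_smul, hni, inv_mul_cancel₀ ht0.ne']
  have hT'T : ‖T' - T‖ ≤ η := by
    have : T' - T = (((1 - ‖T‖ : ℝ)) : 𝕜) • T' := by
      push_cast
      rw [sub_smul, one_smul, hT', smul_inv_smul₀ ht0']
    rw [this, norm_smul, hT'1, RCLike.norm_ofReal, abs_of_nonneg (by linarith)]
    linarith
  obtain ⟨S, x₀, hS, -, hx0, hS1, hSx, hST, hxx⟩ := H T' x (hTc.smul _) hT'1 hx (by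
    rw [hT', smul_apply, norm_smul, hni]
    have : 1 ≤ ‖T‖⁻¹ := one_le_inv_iff₀.mpr ⟨ht0, hT1⟩
    nlinarith [norm_nonneg (T x)])
  have hST2 : ∀ z, ‖z‖ ≤ 1 → ‖S z - T z‖ ≤ 2 * ε := by
    intro z hz
    have h1 : ‖S - T‖ ≤ 2 * ε := by linarith [norm_sub_le_norm_sub_add_norm_sub S T' T]
    have h2 := (S - T).le_opNorm z
    rw [sub_apply] at h2
    nlinarith [norm_nonneg (S - T), norm_nonneg z]
  have hvx0 : ‖v x₀‖ < 1 := by
    have : v x₀ = v x - v (x - x₀) := by rw [map_sub]; ring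
    rw [this]; linarith [norm_sub_le (v x) (v (x - x₀)), hvx (x - x₀)]
  have hSy : ‖S x₀ - y₀‖ ≤ 4 * ε := by
    have h1 := hST2 x₀ hx0.le
    have h2 : ‖T x₀ - T x‖ ≤ ε := by
      rw [← map_sub]
      refine (T.le_opNorm _).trans ?_
      rw [norm_sub_rev]
      nlinarith [norm_nonneg (x - x₀)]
    linarith [norm_sub_le_norm_sub_add_norm_sub (S x₀) (T x₀) y₀,
      norm_sub_le_norm_sub_add_norm_sub (T x₀) (T x) y₀]
  obtain ⟨φ, hφ, hφ0⟩ := exists_dual_vector 𝕜 (S x₀) (by rw [hSx]; norm_num)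
  rw [hSx, RCLike.ofReal_one] at hφ0
  let f : StrongDual 𝕜 X := φ.comp S
  have hf : ∀ z, f z = φ (S z) := fun z => rfl
  have hf1 : ‖f‖ ≤ 1 := (φ.opNorm_comp_le S).trans (by rw [hφ, hS1, one_mul])
  have hfv : ‖f + v‖ = 2 := by
    obtain ⟨a, ha⟩ := hL f
    have h1 := ha a
    rw [sub_add_cancel] at h1
    have h2 : (1 : 𝕜) = (f - a • v) x₀ + a * v x₀ := by
      rw [sub_apply, smul_apply, smul_eq_mul, hf, hφ0]; ring
    have h3 := norm_add_le ((f - a • v) x₀) (a * v x₀)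
    rw [← h2, norm_one, norm_mul] at h3
    have h4 := (f - a • v).le_opNorm x₀
    rw [hx0, mul_one] at h4
    have h5 : ‖a‖ = 0 := by nlinarith [norm_nonneg a, norm_nonneg (v x₀)]
    have h6 := ha 1
    have h7 : f - a • v = f := by ext y; simp [norm_eq_zero.mp h5]
    rw [h7, one_smul, norm_one] at h6
    rw [h7] at h4 h3
    rw [h5, zero_mul, add_zero] at h3
    linarith
  choose z hz hz1 hz2 using fun n : ℕ => both hf1 hv.le hfv (γ := 1 / ((n : ℝ) + 1)) (by positivity)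
  have hl : ∀ g : ℕ → 𝕜, (∀ n, ‖g n - 1‖ < 1 / ((n : ℝ) + 1)) → Tendsto g atTop (𝓝 1) := by
    intro g hg
    rw [tendsto_iff_norm_sub_tendsto_zero]
    exact squeeze_zero (fun _ => norm_nonneg _) (fun n => (hg n).le) tendsto_one_div_add_atTop_nhds_zero_nat
  obtain ⟨σ, hσ, hlim⟩ := rse_step hS hS1 hx0 hSx hφ hφ0 z hz (hl _ hz1)
  have hlim2 := (hl _ hz2).comp hσ.tendsto_atTop
  rw [tendsto_iff_norm_sub_tendsto_zero] at hlim hlim2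
  obtain ⟨n, hn, hn'⟩ := ((hlim.eventually (gt_mem_nhds hε0)).and
    (hlim2.eventually (gt_mem_nhds hε0))).exists
  set w := z (σ n)
  have hn2 : ‖v w - 1‖ < ε := hn'
  have hTw : ‖T w - y₀‖ ≤ 7 * ε := by
    have h1 := hST2 w (hz _)
    rw [norm_sub_rev] at h1
    linarith [norm_sub_le_norm_sub_add_norm_sub (T w) (S w) y₀,
      norm_sub_le_norm_sub_add_norm_sub (S w) (S x₀) y₀]
  have hk : ‖y₁ - (1 - u w) • y₀‖ ≤ 8 * ε := by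
    have : y₁ - (1 - u w) • y₀ = (T w - y₀) - (v w - 1) • y₁ := by rw [hT]; module
    rw [this]
    refine (norm_sub_le _ _).trans ?_
    rw [norm_smul]
    nlinarith [norm_nonneg (v w - 1), norm_nonneg y₁]
  obtain ⟨r, hr, er⟩ := rot (1 - u w)
  have h1 := hy r hr
  have h2 : (((1 + ‖1 - u w‖ : ℝ)) : 𝕜) • y₀ = (y₀ + r • y₁) - r • (y₁ - (1 - u w) • y₀) := by
    rw [RCLike.ofReal_add, RCLike.ofReal_one, ← er]; module
  have h3 := norm_sub_le (y₀ + r • y₁) (r • (y₁ - (1 - u w) • y₀))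
  rw [← h2, norm_smul, norm_smul, hr, RCLike.norm_ofReal, abs_of_nonneg (by positivity)] at h3
  have h4 := norm_add_le (y₁ - (1 - u w) • y₀) ((1 - u w) • y₀)
  rw [sub_add_cancel, norm_smul] at h4
  nlinarith

theorem l1_add (g : lp (fun _ : ℕ => 𝕜) 1) (hg : g 1 = 0) (c : 𝕜) :
    ‖g + c • lp.single 1 1 (1 : 𝕜)‖ = ‖g‖ + ‖c‖ := by
  have h := lp.norm_compl_sum_single (p := 1) (by simp) (g + c • lp.single 1 1 (1 : 𝕜)) {1}
  have e : (g + c • lp.single 1 1 (1 : 𝕜) : lp (fun _ : ℕ => 𝕜) 1) 1 = c := by simp [hg]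
  have e2 : lp.single (E := fun _ : ℕ => 𝕜) 1 1 c = c • lp.single 1 1 (1 : 𝕜) := by
    rw [← lp.single_smul, smul_eq_mul, mul_one]
  rw [Finset.sum_singleton, Finset.sum_singleton, e, e2, add_sub_cancel_right] at h
  simp only [ENNReal.toReal_one, Real.rpow_one] at h
  linarith

theorem kuc (hX : IsL1Predual 𝕜 X) (h : BPBpK 𝕜 X Y) : KUC 𝕜 Y := by
  obtain ⟨Φ⟩ := hX
  have key : ∀ f : StrongDual 𝕜 X, Φ f 1 = 0 → ∀ c : 𝕜,
      ‖f + c • Φ.symm (lp.single 1 1 (1 : 𝕜))‖ = ‖f‖ + ‖c‖ := by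
    intro f hf c
    rw [← Φ.norm_map, map_add, map_smul, Φ.apply_symm_apply, l1_add _ hf, Φ.norm_map]
  refine core (Φ.symm (lp.single 1 0 (1 : 𝕜))) (Φ.symm (lp.single 1 1 (1 : 𝕜))) ?_ ?_ (key _ ?_)
    (fun f => ⟨Φ f 1, key _ ?_⟩) h
  · rw [Φ.symm.norm_map, lp.norm_single (by simp), norm_one]
  · rw [Φ.symm.norm_map, lp.norm_single (by simp), norm_one]
  · simp
  · simp

end Proofs

theorem uc_of_kuc {Y : Type v} [NormedAddCommGroup Y] [NormedSpace ℝ Y] (h : KUC ℝ Y) : UC Y := by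
  intro ε hε
  obtain ⟨δ, hδ, H⟩ := h (ε / 4) (by positivity)
  refine ⟨min δ (1 / 2), by positivity, (min_le_right _ _).trans_lt (by norm_num),
    fun y₁ y₂ h1 h2 h3 => ?_⟩
  by_contra hc
  push Not at hc
  have n2 : ‖(1 / 2 : ℝ)‖ = 1 / 2 := by simp
  have := H ((1 / 2 : ℝ) • (y₁ + y₂)) ((1 / 2 : ℝ) • (y₁ - y₂)) (fun w hw => ?_)
    (by rw [norm_smul, n2]; linarith)
  · rw [norm_smul, n2] at this
    linarith [min_le_left δ (1 / 2)]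
  · rcases (abs_eq zero_le_one).mp hw with rfl | rfl
    · rw [show (1 / 2 : ℝ) • (y₁ + y₂) + (1 : ℝ) • (1 / 2 : ℝ) • (y₁ - y₂) = y₁ by module, h1]
    · rw [show (1 / 2 : ℝ) • (y₁ + y₂) + (-1 : ℝ) • (1 / 2 : ℝ) • (y₁ - y₂) = y₂ by module, h2]

theorem result :
    (∀ (X : Type u) (Y : Type v) [NormedAddCommGroup X] [NormedSpace ℝ X] [CompleteSpace X]
      [NormedAddCommGroup Y] [NormedSpace ℝ Y] [CompleteSpace Y],
      IsL1Predual ℝ X → BPBpK ℝ X Y → UC Y) ∧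
    (∀ (X : Type u) (Y : Type v) [NormedAddCommGroup X] [NormedSpace ℂ X] [CompleteSpace X]
      [NormedAddCommGroup Y] [NormedSpace ℂ Y] [CompleteSpace Y],
      IsL1Predual ℂ X → BPBpK ℂ X Y → KUC ℂ Y) :=
  ⟨fun _ _ _ _ _ _ _ _ hX h => uc_of_kuc (kuc hX h), fun _ _ _ _ _ _ _ _ hX h => kuc hX h⟩

end Pool.Agent.Results.MP_88a444_an.Predual
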